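import Pool.Agent.Helper32.BD.D1
import Pool.Agent.Helper29.BD.D2
import Pool.Agent.Helper7.BD.D3
import Pool.Agent.Helper51.BD.D4
import Pool.Agent.Helper29.BD.D5

/-!
# Bounded degeneracy, module D6: extraction of a sparse family of pairs
-/

noncomputable section

open Finset Helper5.CR Classical

namespace Helper5.BD

variable {V E X : Type} [Fintype V] [Fintype E] [Fintype X] {C : CSys V E X} {d : ℕ}

section D6

private lemma lo_ne_hi_D6 (O : Ori C d) (e : E) : O.lo e ≠ O.hi e := by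
  have := C.loop e
  rcases O.ends e with ⟨h1, h2⟩ | ⟨h1, h2⟩
  · rw [← h1, ← h2]; exact this
  · rw [← h1, ← h2]; exact this.symm

private lemma lo_ne_lo_D6 (O : Ori C d) (x : X) : O.lo (C.e₁ x) ≠ O.lo (C.e₂ x) := by
  have g1 := C.h1 x
  have g2 := C.h2 x
  have g3 := C.h3 x
  have g4 := C.h4 x
  rcases O.ends (C.e₁ x) with ⟨a1, a2⟩ | ⟨a1, a2⟩ <;>
  rcases O.ends (C.e₂ x) with ⟨b1, b2⟩ | ⟨b1, b2⟩ <;>
  rw [a1] at g1 g2 <;> rw [a2] at g3 g4 <;> rw [b1] at g1 g3 <;> rw [b2] at g2 g4 <;> assumption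

private lemma crs_lo_D6 (O : Ori C d) {e f : E} (h : Ori.crs C e f) : O.lo e ≠ O.lo f := by
  obtain ⟨x, ⟨h1, h2⟩ | ⟨h1, h2⟩⟩ := h
  · rw [← h1, ← h2]; exact lo_ne_lo_D6 O x
  · rw [← h1, ← h2]; exact (lo_ne_lo_D6 O x).symm

private lemma rel_symm_D6 (O : Ori C d) (p : V × V) (a : V) (p' : V × V) (a' : V)
    (h : O.Rel p a p' a') : O.Rel p' a' p a := by
  rcases h with h | h | ⟨e, f, h1, h2, x, h3⟩
  · exact Or.inl h.symm
  · exact Or.inr (Or.inl (by rw [h, Prod.swap_swap]))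
  · exact Or.inr (Or.inr ⟨f, e, h2, h1, x, h3.symm⟩)

private lemma adj_symm_D6 (O : Ori C d) {u v : V} (h : O.adj u v) : O.adj v u := Or.symm h

/-- nodes -/
private def Nd_D6 (O : Ori C d) (q : (V × V) × V) : Prop :=
  q.2 ∈ O.com q.1 ∧ q.1.1 ≠ q.1.2 ∧ ¬ O.adj q.1.1 q.1.2

private def cc_D6 (O : Ori C d) (p : V × V) : ℕ := max 1 (O.com p).card

private lemma cc_pos_D6 (O : Ori C d) (p : V × V) : (0 : ℝ) < (cc_D6 O p : ℝ) := by
  have : 1 ≤ cc_D6 O p := le_max_left _ _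
  exact_mod_cast this

/-- the admissible representatives -/
private def S_D6 (O : Ori C d) (col : V → Bool) (p : V × V) : Finset V :=
  univ.filter (fun a => Nd_D6 O (p, a) ∧ (col a = true ∧ col p.1 = false ∧ col p.2 = false))

private lemma sum_nd_D6 (O : Ori C d) (F : (V × V) × V → ℝ) :
    ∑ i : {q : (V × V) × V // Nd_D6 O q}, F i = ∑ p, ∑ a, if Nd_D6 O (p, a) then F (p, a) else 0 := by
  rw [← Finset.sum_subtype (univ.filter (fun q => Nd_D6 O q)) (fun x => by simp) F, sum_filter,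
    Fintype.sum_prod_type]

private lemma tot_D6 (O : Ori C d) (p : V × V) :
    (∑ a, if Nd_D6 O (p, a) then (O.w p : ℝ) / (cc_D6 O p : ℝ) else 0) = O.w p := by
  by_cases h : O.w p = 0
  · simp [h]
  · obtain ⟨h1, h2⟩ := w_pos O p h
    have h3 : (univ.filter (fun a => Nd_D6 O (p, a))) = O.com p := by
      ext a
      simp only [Nd_D6, mem_filter, mem_univ, true_and]
      exact ⟨fun h => h.1, fun h => ⟨h, h1, h2⟩⟩
    rw [← sum_filter, h3, sum_const, nsmul_eq_mul]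
    have h4 : 1 ≤ (O.com p).card := by
      by_contra h5
      have h6 : (O.com p).card = 0 := by omega
      have h7 := w_le O p
      rw [h6] at h7
      omega
    have h5 : cc_D6 O p = (O.com p).card := max_eq_right h4
    rw [h5]
    have h6 : ((O.com p).card : ℝ) ≠ 0 := by
      have : (O.com p).card ≠ 0 := by omega
      exact_mod_cast this
    field_simp

private lemma part_D6 (O : Ori C d) (col : V → Bool) (p : V × V) :
    (∑ a, if Nd_D6 O (p, a) then (if col a = true ∧ col p.1 = false ∧ col p.2 = false then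
      (O.w p : ℝ) / (cc_D6 O p : ℝ) else 0) else 0) =
      (O.w p : ℝ) * ((S_D6 O col p).card : ℝ) / (cc_D6 O p : ℝ) := by
  have h1 : ∀ a, (if Nd_D6 O (p, a) then (if col a = true ∧ col p.1 = false ∧ col p.2 = false then
      (O.w p : ℝ) / (cc_D6 O p : ℝ) else 0) else 0) =
      if Nd_D6 O (p, a) ∧ (col a = true ∧ col p.1 = false ∧ col p.2 = false) then
        (O.w p : ℝ) / (cc_D6 O p : ℝ) else 0 := by
    intro a
    by_cases h2 : Nd_D6 O (p, a) <;> simp [h2]
  rw [sum_congr rfl fun a _ => h1 a, ← sum_filter, sum_const, nsmul_eq_mul]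
  unfold S_D6
  ring

/-- a good colouring -/
private lemma hub_D6 (O : Ori C d) : ∃ col : V → Bool, (Ori.cnt (fun x => O.AB x) : ℝ) ≤
    8 * ∑ p, (O.w p : ℝ) * ((S_D6 O col p).card : ℝ) / (cc_D6 O p : ℝ) := by
  have harc : ∀ {a v : V}, O.arc a v → a ≠ v := by
    rintro a v ⟨e, h1, h2⟩
    rw [← h1, ← h2]
    exact lo_ne_hi_D6 O e
  have hcom : ∀ i : {q : (V × V) × V // Nd_D6 O q}, O.arc i.1.2 i.1.1.1 ∧ O.arc i.1.2 i.1.1.2 := by
    intro i
    have h := i.2.1
    simp only [Ori.com, mem_filter, mem_univ, true_and] at h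
    exact h
  obtain ⟨col, hcol⟩ := exists_hub_col (V := V) (ι := {q : (V × V) × V // Nd_D6 O q})
    (fun i => (O.w i.1.1 : ℝ) / (cc_D6 O i.1.1 : ℝ))
    (fun i => div_nonneg (Nat.cast_nonneg _) (cc_pos_D6 O _).le)
    (fun i => i.1.2) (fun i => i.1.1.1) (fun i => i.1.1.2)
    (fun i => harc (hcom i).1) (fun i => harc (hcom i).2) (fun i => i.2.2.1)
  refine ⟨col, ?_⟩
  have h1 := sum_nd_D6 O (fun q => (O.w q.1 : ℝ) / (cc_D6 O q.1 : ℝ))
  have h2 := sum_nd_D6 O (fun q => if col q.2 = true ∧ col q.1.1 = false ∧ col q.1.2 = false then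
    (O.w q.1 : ℝ) / (cc_D6 O q.1 : ℝ) else 0)
  simp only [tot_D6] at h1
  simp only [part_D6] at h2
  rw [h1, h2] at hcol
  rw [← sum_w O]
  push_cast
  exact hcol

/-- the crossings of a family of pairs -/
private lemma fib_D6 (O : Ori C d) (T : Finset (V × V)) :
    ∑ p ∈ T, O.w p =
      Ori.cnt (fun x => O.AB x ∧ (O.hi (C.e₁ x), O.hi (C.e₂ x)) ∈ T) := by
  unfold Ori.cnt
  rw [card_eq_sum_card_fiberwise (f := fun x => (O.hi (C.e₁ x), O.hi (C.e₂ x))) (t := T)]
  · refine sum_congr rfl fun p hp => ?_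
    unfold Ori.w Ori.cnt
    congr 1
    ext x
    simp only [mem_filter, mem_univ, true_and]
    constructor
    · rintro ⟨h1, h2, h3⟩
      have h4 : (O.hi (C.e₁ x), O.hi (C.e₂ x)) = p := Prod.ext h2 h3
      exact ⟨⟨h1, h4 ▸ hp⟩, h4⟩
    · rintro ⟨⟨h1, -⟩, h4⟩
      exact ⟨h1, by rw [← h4], by rw [← h4]⟩
  · intro x hx
    simp only [coe_filter, mem_univ, true_and, Set.mem_ofPred_eq] at hx
    exact hx.2

/-- D6 -/
theorem extraction (O : Ori C d) (τ : ℝ) (hf : O.Flat τ) (hH : O.HubProp)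
    (hAB : (Fintype.card X : ℝ) / 2 ≤ Ori.cnt (fun x => O.AB x))
    (hX : 0 < Fintype.card X) (hm : d ^ 4 * Fintype.card E ≤ Fintype.card X) :
    1 / (2048 * (4 * (d : ℝ) ^ 2 + 1)) ≤ 6 * τ := by
  obtain ⟨col, hcol⟩ := hub_D6 O
  have hN : (0 : ℝ) < Fintype.card X := by exact_mod_cast hX
  obtain ⟨x₀⟩ : Nonempty X := Fintype.card_pos_iff.mp hX
  have : Nonempty V := ⟨O.lo (C.e₁ x₀)⟩
  have hScom : ∀ p, S_D6 O col p ⊆ O.com p := by
    intro p a ha
    simp only [S_D6, mem_filter, mem_univ, true_and] at ha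
    exact ha.1.1
  have hconf := conflict_bound O (S_D6 O col) hScom (w_le O) (sum_w O) (count_same O)
    (count_cross O) hm
  set D : ℝ := 4 * (d : ℝ) ^ 2 + 1 with hD
  have hD1 : 1 ≤ D := by
    have : 0 ≤ (d : ℝ) ^ 2 := sq_nonneg _
    linarith
  have hD0 : 0 < D := by linarith
  obtain ⟨T, ρ, hTS, hTR, hTw⟩ := sampling (I := V × V) (A := V) (S_D6 O col)
    (fun p => (O.w p : ℝ)) (fun p => (cc_D6 O p : ℝ)) (fun p => Nat.cast_nonneg _)
    (cc_pos_D6 O) (fun p => by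
      have h1 : (S_D6 O col p).card ≤ cc_D6 O p :=
        (card_le_card (hScom p)).trans (le_max_right _ _)
      exact_mod_cast h1)
    (1 / (64 * D)) (by positivity) (by
      rw [div_le_one (by positivity)]
      linarith)
    (fun p a p' a' => O.Rel p a p' a') (rel_symm_D6 O) ((8 * d ^ 2 + 2) * Fintype.card X)
    (by
      unfold cc_D6
      refine le_trans (le_of_eq (sum_congr rfl fun i _ => sum_congr ?_ fun _ _ => rfl)) hconf
      ext j
      simp only [mem_erase, mem_univ, and_true])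
  -- the weight of `T`
  have hwT : 1 / (64 * D) * (Fintype.card X) / 32 ≤ ((∑ p ∈ T, O.w p : ℕ) : ℝ) := by
    push_cast
    refine le_trans ?_ hTw
    have h1 : (Fintype.card X : ℝ) / 16 ≤
        ∑ p, (O.w p : ℝ) * ((S_D6 O col p).card : ℝ) / (cc_D6 O p : ℝ) := by linarith
    have h2 : 1 / (64 * D) * ((Fintype.card X : ℝ) / 16) ≤ 1 / (64 * D) *
        ∑ p, (O.w p : ℝ) * ((S_D6 O col p).card : ℝ) / (cc_D6 O p : ℝ) :=
      mul_le_mul_of_nonneg_left h1 (by positivity)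
    have h3 : (1 / (64 * D)) ^ 2 * ((8 * (d : ℝ) ^ 2 + 2) * Fintype.card X) =
        1 / (64 * D) * (Fintype.card X) / 32 := by
      have : (8 * (d : ℝ) ^ 2 + 2) = 2 * D := by rw [hD]; ring
      rw [this]
      field_simp
      ring
    rw [h3]
    have h4 : 1 / (64 * D) * (Fintype.card X : ℝ) / 32 =
        1 / (64 * D) * ((Fintype.card X : ℝ) / 16) - 1 / (64 * D) * (Fintype.card X) / 32 := by
      ring
    linarith [h2, h4]
  -- membership
  have hmem : ∀ p ∈ T, O.arc (ρ p) p.1 ∧ O.arc (ρ p) p.2 ∧ p.1 ≠ p.2 ∧ ¬ O.adj p.1 p.2 ∧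
      col (ρ p) = true ∧ col p.1 = false ∧ col p.2 = false := by
    intro p hp
    have h1 := hTS p hp
    simp only [S_D6, Nd_D6, mem_filter, mem_univ, true_and, Ori.com] at h1
    exact ⟨h1.1.1.1, h1.1.1.2, h1.1.2.1, h1.1.2.2, h1.2.1, h1.2.2.1, h1.2.2.2⟩
  -- the orientation of `T`
  obtain ⟨Γ, hΓ1, hΓ2, hΓ3⟩ := degenerate_orient (V := V) (ι := {p : V × V // p ∈ T})
    (fun i => i.1.1) (fun i => i.1.2) 6 (by
      intro J hJ
      have hJT : ∀ p ∈ J.map ⟨Subtype.val, Subtype.val_injective⟩, p ∈ T := by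
        intro p hp
        rw [mem_map] at hp
        obtain ⟨i, -, rfl⟩ := hp
        exact i.2
      obtain ⟨v, hv1, hv2⟩ := hH (J.map ⟨Subtype.val, Subtype.val_injective⟩) ρ (hJ.map)
        (fun p hp => ⟨(hmem p (hJT p hp)).1, (hmem p (hJT p hp)).2.1, (hmem p (hJT p hp)).2.2.1⟩)
        (fun p hp p' hp' hne => by
          have h := hTR p (hJT p hp) p' (hJT p' hp') hne
          exact ⟨fun h1 => h (Or.inl h1), fun h1 => h (Or.inr (Or.inl h1))⟩)
        (fun p hp p' hp' => by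
          have h1 := (hmem p (hJT p hp)).2.2.2.2.1
          have h2 := (hmem p' (hJT p' hp')).2.2.2.2.2
          refine ⟨fun h3 => ?_, fun h3 => ?_⟩
          · rw [h3, h2.1] at h1
            exact Bool.false_ne_true h1
          · rw [h3, h2.2] at h1
            exact Bool.false_ne_true h1)
        (fun p hp p' hp' e f he hf' hc => by
          by_cases hne : p = p'
          · subst hne
            exact crs_lo_D6 O hc (he.1.trans hf'.1.symm)
          · exact hTR p (hJT p hp) p' (hJT p' hp') hne (Or.inr (Or.inr ⟨e, f, he, hf', hc⟩)))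
      refine ⟨v, ?_⟩
      have hcard : (J.filter (fun i : {p : V × V // p ∈ T} => i.1.1 = v ∨ i.1.2 = v)).card =
          ((J.map ⟨Subtype.val, Subtype.val_injective⟩).filter
            (fun p : V × V => p.1 = v ∨ p.2 = v)).card := by
        rw [filter_map, card_map]
        rfl
      rw [hcard]
      exact ⟨hv1, hv2⟩)
  have hflat := hf.f1 Γ 6 (by
    intro u v huv
    obtain ⟨i, ⟨h1, h2⟩ | ⟨h1, h2⟩⟩ := hΓ3 u v huv
    · rw [← h1, ← h2]
      exact (hmem i.1 i.2).2.2.2.1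
    · rw [← h1, ← h2]
      exact fun h => (hmem i.1 i.2).2.2.2.1 (adj_symm_D6 O h)) hΓ1
  have hle : ∑ p ∈ T, O.w p ≤ Ori.cnt (fun x => ∃ u v, Γ u v ∧ O.cp x u v) := by
    rw [fib_D6]
    unfold Ori.cnt
    apply card_le_card
    intro x hx
    simp only [mem_filter, mem_univ, true_and] at hx ⊢
    rcases hΓ2 ⟨_, hx.2⟩ with h | h
    · exact ⟨_, _, h, Or.inl ⟨Or.inr rfl, Or.inr rfl⟩⟩
    · exact ⟨_, _, h, Or.inr ⟨Or.inr rfl, Or.inr rfl⟩⟩
  have hle' : ((∑ p ∈ T, O.w p : ℕ) : ℝ) ≤ τ * (6 : ℕ) * Fintype.card X := by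
    refine le_trans ?_ hflat
    exact_mod_cast hle
  have hfin := hwT.trans hle'
  have h1 : 1 / (64 * D) * (Fintype.card X : ℝ) / 32 = 1 / (2048 * D) * Fintype.card X := by
    field_simp
    ring
  rw [h1] at hfin
  have h2 : τ * ((6 : ℕ) : ℝ) * (Fintype.card X : ℝ) = (6 * τ) * Fintype.card X := by
    push_cast
    ring
  rw [h2] at hfin
  exact le_of_mul_le_mul_right hfin hN

end D6

end Helper5.BD
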